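import Pool.Agent.H60.D5b
import Pool.Agent.H60.FkDefs

namespace Pool.Agent.Results.MP_9a49ed_nt.Linear

open Pool.Agent.H60.D6 Pool.Agent.H60.Fk

theorem result : ∃ c : ℝ, 0 < c ∧ ∃ N : ℕ, ∀ n : ℕ, N ≤ n →
    c * (n : ℝ) ≤ ({m ∈ F 4 \ F 3 | m ≤ n}.ncard : ℝ) ∧ ({m ∈ F 4 \ F 3 | m ≤ n}.ncard : ℝ) ≤ n := by
  have sub : ∀ n, {m ∈ F 4 \ F 3 | m ≤ n} ⊆ (Finset.Ioc 0 n : Finset ℕ) := by
    rintro n m ⟨⟨⟨s, -, -, h1, h2, -⟩, -⟩, h3⟩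
    simpa using ⟨(h2 m h1).1, h3⟩
  obtain ⟨c, hc, N, h⟩ := unscale (g := fun n => {m ∈ F 4 \ F 3 | m ≤ n}.ncard) four_pos (fun N n hn => by
    rw [← Set.ncard_coe_finset]
    apply Set.ncard_le_ncard _ ((Finset.finite_toSet _).subset (sub n))
    intro m hm
    simp only [Finset.coe_filter, Finset.mem_Ioc, Set.mem_setOf_eq] at hm
    obtain ⟨h1, ⟨u, rfl, h2⟩, h4⟩ := hm
    obtain ⟨s, h5, h6⟩ := four h2
    refine ⟨⟨⟨s, by omega, by omega, h6⟩, ?_⟩, by omega⟩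
    rintro ⟨s, -, h5, h6, h7, h8⟩
    exact h4 (to_rep3 h5 h6 h7 h8)) main4
  refine ⟨c, hc, N, fun n hn => ⟨h n hn, ?_⟩⟩
  have := Set.ncard_le_ncard (sub n) (Finset.finite_toSet _)
  rw [Set.ncard_coe_finset] at this
  exact_mod_cast (by simpa using this)

end Pool.Agent.Results.MP_9a49ed_nt.Linear
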